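import Pool.Agent.Y462.AR.Stm2
import Pool.Agent.Y462.AR.PPR

/-!
# Artin groups: the free group of rank two, with real ping-pong

Adapted from `Pool/Agent/Y435/AR/DIH0.lean` of helper435.
-/

set_option autoImplicit false

namespace Pool.Agent.Y764.AR

open Pool.Agent.Y462.AR
open Pool.Agent.Y462.PA (Am)

/-- the powers of the first map -/
def RA : Multiplicative ℤ →* Equiv.Perm (ℝ × ℝ) where
  toFun n :=
    { toFun := fun v => (v.1 + 2 * ((Multiplicative.toAdd n : ℤ) : ℝ) * v.2, v.2)
      invFun := fun v => (v.1 - 2 * ((Multiplicative.toAdd n : ℤ) : ℝ) * v.2, v.2)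
      left_inv := fun v => by simp
      right_inv := fun v => by simp }
  map_one' := by
    ext v <;> simp
  map_mul' m n := by
    ext v
    · simp only [toAdd_mul, Equiv.coe_fn_mk, Equiv.Perm.mul_apply, Int.cast_add]
      ring
    · simp

/-- the powers of the second map -/
def RB : Multiplicative ℤ →* Equiv.Perm (ℝ × ℝ) where
  toFun n :=
    { toFun := fun v => (v.1, v.2 - 2 * ((Multiplicative.toAdd n : ℤ) : ℝ) * v.1)
      invFun := fun v => (v.1, v.2 + 2 * ((Multiplicative.toAdd n : ℤ) : ℝ) * v.1)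
      left_inv := fun v => by simp
      right_inv := fun v => by simp }
  map_one' := by
    ext v <;> simp
  map_mul' m n := by
    ext v
    · simp
    · simp only [toAdd_mul, Equiv.coe_fn_mk, Equiv.Perm.mul_apply, Int.cast_add]
      ring

theorem RA_apply (n : Multiplicative ℤ) (v : ℝ × ℝ) :
    RA n v = (v.1 + 2 * ((Multiplicative.toAdd n : ℤ) : ℝ) * v.2, v.2) := rfl

theorem RB_apply (n : Multiplicative ℤ) (v : ℝ × ℝ) :
    RB n v = (v.1, v.2 - 2 * ((Multiplicative.toAdd n : ℤ) : ℝ) * v.1) := rfl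

theorem est {n : ℤ} {p q : ℝ} (hn : n ≠ 0) (h : |p| < |q|) : |q| < |p + 2 * (n : ℝ) * q| := by
  have h1 : |2 * (n : ℝ) * q| ≤ |p + 2 * (n : ℝ) * q| + |p| := by
    have e : 2 * (n : ℝ) * q = (p + 2 * (n : ℝ) * q) - p := by ring
    calc |2 * (n : ℝ) * q| = |(p + 2 * (n : ℝ) * q) - p| := by rw [← e]
      _ ≤ |p + 2 * (n : ℝ) * q| + |p| := abs_sub _ _
  have h2 : 2 * |q| ≤ |2 * (n : ℝ) * q| := by
    rw [abs_mul, abs_mul]
    have h3 : (1 : ℝ) ≤ |(n : ℝ)| := by
      have := Int.one_le_abs hn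
      exact_mod_cast this
    have h4 := abs_nonneg q
    have h5 : |(2 : ℝ)| = 2 := abs_of_pos (by norm_num)
    rw [h5]
    nlinarith
  linarith

theorem est' {n : ℤ} {p q : ℝ} (hn : n ≠ 0) (h : |q| < |p|) : |p| < |q - 2 * (n : ℝ) * p| := by
  have h1 := est (n := -n) (neg_ne_zero.2 hn) h
  have e : q + 2 * ((-n : ℤ) : ℝ) * p = q - 2 * (n : ℝ) * p := by push_cast; ring
  rwa [e] at h1

theorem lam_zero : lam 0 = 2 := by simp [lam]

theorem t_zero : S_DG 0 := by
  intro b
  obtain ⟨φ, hφ⟩ := t_lift Bool (Equiv.Perm (ℝ × ℝ)) (fun _ _ => 0)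
    (fun c => if c = b then RA (Multiplicative.ofAdd 1) else RB (Multiplicative.ofAdd 1))
    (fun s t h => absurd rfl h)
  have hb : φ (gen _ b) = RA (Multiplicative.ofAdd 1) := by rw [hφ, if_pos rfl]
  have hc : φ (gen _ (!b)) = RB (Multiplicative.ofAdd 1) := by
    rw [hφ, if_neg (by cases b <;> decide)]
  refine ⟨φ, ?_, ?_, ?_⟩
  · rw [hb]
    ext v <;> simp [RA_apply, tau, lam_zero]
  · rw [hc]
    ext v <;> simp [RB_apply, sig, lam_zero]
  · intro len _ g hg _
    let α : PUnit.{1} →* Multiplicative ℤ := 1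
    let θ : Am α α →* D 0 := Pool.Agent.Y462.PA.Am.lift α α
      (zpowersHom (D 0) (gen (fun _ _ => 0) b)) (zpowersHom (D 0) (gen (fun _ _ => 0) (!b)))
      (fun c => by simp [α])
    have hl : ∀ n : Multiplicative ℤ, φ (θ (Pool.Agent.Y462.PA.Am.inl α α n)) = RA n := by
      have h1 : (φ.comp θ).comp (Pool.Agent.Y462.PA.Am.inl α α) = RA := by
        apply MonoidHom.ext_mint
        simp only [MonoidHom.comp_apply, θ, Pool.Agent.Y462.PA.Am.lift_inl, zpowersHom_apply,
          toAdd_ofAdd, zpow_one]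
        exact hb
      intro n
      rw [← h1]
      rfl
    have hr : ∀ n : Multiplicative ℤ, φ (θ (Pool.Agent.Y462.PA.Am.inr α α n)) = RB n := by
      have h1 : (φ.comp θ).comp (Pool.Agent.Y462.PA.Am.inr α α) = RB := by
        apply MonoidHom.ext_mint
        simp only [MonoidHom.comp_apply, θ, Pool.Agent.Y462.PA.Am.lift_inr, zpowersHom_apply,
          toAdd_ofAdd, zpow_one]
        exact hc
      intro n
      rw [← h1]
      rfl
    have hθ : Function.Surjective θ := by
      intro g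
      have h1 : g ∈ θ.range := by
        apply mem_of_gen
        intro s
        by_cases hs : s = b
        · refine ⟨Pool.Agent.Y462.PA.Am.inl α α (Multiplicative.ofAdd 1), ?_⟩
          simp only [θ, Pool.Agent.Y462.PA.Am.lift_inl, zpowersHom_apply, toAdd_ofAdd, zpow_one]
          rw [hs]
        · refine ⟨Pool.Agent.Y462.PA.Am.inr α α (Multiplicative.ofAdd 1), ?_⟩
          simp only [θ, Pool.Agent.Y462.PA.Am.lift_inr, zpowersHom_apply, toAdd_ofAdd, zpow_one]
          have : s = !b := by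
            revert hs
            cases s <;> cases b <;> simp
          rw [this]
      exact h1
    have hne : ∀ n : Multiplicative ℤ, n ∉ α.range → Multiplicative.toAdd n ≠ 0 := by
      intro n hn h0
      apply hn
      refine ⟨PUnit.unit, ?_⟩
      have h1 : n = 1 := h0
      rw [h1]
      rfl
    have hα : ∀ c : PUnit.{1}, Pool.Agent.Y462.PA.Am.inl α α (α c) = 1 := by
      intro c
      have : α c = 1 := rfl
      rw [this, map_one]
    have hinj : Function.Injective (φ.comp θ) := by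
      refine Pool.Agent.Y462.AR.PPR.t_ppr PUnit (Multiplicative ℤ) (Multiplicative ℤ) (ℝ × ℝ) α α
        (φ.comp θ) {v | |v.2| < |v.1|} {v | |v.1| < |v.2|}
        (fun v => |v.2|) ?_ ⟨(1, 0), ?_⟩ ⟨(0, 1), ?_⟩ ?_ ?_ ?_ ?_ ?_
      · rw [Set.disjoint_left]
        intro v h1 h2
        have h3 : |v.2| < |v.1| := h1
        have h4 : |v.1| < |v.2| := h2
        exact lt_asymm h3 h4
      · show |(0 : ℝ)| < |(1 : ℝ)|
        simp
      · show |(0 : ℝ)| < |(1 : ℝ)|
        simp
      · intro a ha v hv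
        rw [MonoidHom.comp_apply, hl, RA_apply]
        exact ⟨est (hne a ha) hv, le_rfl⟩
      · intro a ha v hv
        rw [MonoidHom.comp_apply, hr, RB_apply]
        have h1 : |v.1| < |v.2 - 2 * ((Multiplicative.toAdd a : ℤ) : ℝ) * v.1| := est' (hne a ha) hv
        have h2 : |v.2| < |v.1| := hv
        exact ⟨h1, h2.trans h1⟩
      · intro c v hv
        rw [hα, map_one]
        exact ⟨hv, rfl⟩
      · intro c v hv
        rw [hα, map_one]
        exact ⟨hv, rfl⟩
      · intro c _
        rfl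
    obtain ⟨h, rfl⟩ := hθ g
    have h1 : (φ.comp θ) h = (φ.comp θ) 1 := by
      rw [map_one]
      exact hg
    rw [hinj h1, map_one]

end Pool.Agent.Y764.AR
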